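import Pool.Agent.Helper52.MA.Defs2
import Pool.Agent.Helper32.HB.Nam

/-!
# Project MA, module MA-8: names of pairs and numbers
-/

set_option autoImplicit false
set_option linter.unusedSectionVars false

namespace Pool.Agent.Helper52.MA

open Set Pool.Agent.Helper33.HM Pool.Agent.Helper33.HMG Pool.Agent.Helper32.HB

universe u

variable {P : Type u} [Preorder P] [OrderTop P]

theorem pairN_fmem_left (σ τ : Nm P) (p : P) : fmem σ (upairN σ τ) p :=
  fmem_child (upairN σ τ) ⟨true⟩ le_top

theorem pairN_fmem_right (σ τ : Nm P) (p : P) : fmem τ (upairN σ τ) p :=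
  fmem_child (upairN σ τ) ⟨false⟩ le_top

theorem pairN_fmem_dense {ρ σ τ : Nm P} {p : P} (h : fmem ρ (upairN σ τ) p) :
    ∃ r, r ≤ p ∧ (feq ρ σ r ∨ feq ρ τ r) := by
  obtain ⟨s, hs, ⟨b⟩, -, hb⟩ := h p le_rfl
  cases b with
  | true => exact ⟨s, hs, Or.inl hb⟩
  | false => exact ⟨s, hs, Or.inr hb⟩

theorem pairN_upair_congr {σ τ σ' τ' : Nm P} {p : P} (h1 : feq σ σ' p) (h2 : feq τ τ' p) :
    feq (upairN σ τ) (upairN σ' τ') p := by
  refine feq_of_fmem ?_ ?_
  · rintro ⟨b⟩ q hq -
    cases b with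
    | true =>
      exact fmem_congr_left (feq_symm (feq_mono h1 hq)) (pairN_fmem_left σ' τ' q)
    | false =>
      exact fmem_congr_left (feq_symm (feq_mono h2 hq)) (pairN_fmem_right σ' τ' q)
  · rintro ⟨b⟩ q hq -
    cases b with
    | true =>
      exact fmem_congr_left (feq_mono h1 hq) (pairN_fmem_left σ τ q)
    | false =>
      exact fmem_congr_left (feq_mono h2 hq) (pairN_fmem_right σ τ q)

theorem feq_pairN {σ τ σ' τ' : Nm P} {p : P} :
    feq (pairN σ τ) (pairN σ' τ') p ↔ feq σ σ' p ∧ feq τ τ' p := by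
  constructor
  · intro h
    have h1 : feq σ σ' p := by
      refine feq_dense fun q hq => ?_
      have h2 : fmem (upairN σ σ) (pairN σ' τ') q :=
        fmem_congr_right (feq_mono h hq) (pairN_fmem_left _ _ q)
      obtain ⟨r, hr, h3⟩ := pairN_fmem_dense h2
      have h4 : fmem σ' (upairN σ σ) r := by
        rcases h3 with h3 | h3
        · exact fmem_congr_right (feq_symm h3) (pairN_fmem_left _ _ r)
        · exact fmem_congr_right (feq_symm h3) (pairN_fmem_left _ _ r)
      obtain ⟨s, hs, h5⟩ := pairN_fmem_dense h4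
      exact ⟨s, hs.trans hr, feq_symm (h5.elim id id)⟩
    refine ⟨h1, feq_dense fun q hq => ?_⟩
    have h2 : fmem (upairN σ' τ') (pairN σ τ) q :=
      fmem_congr_right (feq_symm (feq_mono h hq)) (pairN_fmem_right _ _ q)
    obtain ⟨r, hr, h3⟩ := pairN_fmem_dense h2
    have h1q : feq σ σ' q := feq_mono h1 hq
    rcases h3 with h3 | h3
    · have h4 : fmem τ' (upairN σ σ) r := fmem_congr_right h3 (pairN_fmem_right _ _ r)
      obtain ⟨s, hs, h5⟩ := pairN_fmem_dense h4
      have h6 : feq τ' σ s := h5.elim id id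
      have h7 : fmem (upairN σ τ) (pairN σ' τ') s :=
        fmem_congr_right (feq_mono h ((hs.trans hr).trans hq)) (pairN_fmem_right _ _ s)
      obtain ⟨t, ht, h8⟩ := pairN_fmem_dense h7
      have h6t : feq τ' σ t := feq_mono h6 ht
      have h1t : feq σ σ' t := feq_mono h1q (ht.trans (hs.trans hr))
      have h9 : ∃ u, u ≤ t ∧ (feq τ σ' u ∨ feq τ τ' u) := by
        rcases h8 with h8 | h8
        · obtain ⟨u, hu, h10⟩ := pairN_fmem_dense
            (fmem_congr_right h8 (pairN_fmem_right σ τ t))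
          exact ⟨u, hu, Or.inl (h10.elim id id)⟩
        · exact pairN_fmem_dense (fmem_congr_right h8 (pairN_fmem_right σ τ t))
      obtain ⟨u, hu, h10⟩ := h9
      refine ⟨u, hu.trans (ht.trans (hs.trans hr)), ?_⟩
      rcases h10 with h10 | h10
      · exact feq_trans h10 (feq_trans (feq_symm (feq_mono h1t hu)) (feq_symm (feq_mono h6t hu)))
      · exact h10
    · have h4 : fmem τ' (upairN σ τ) r := fmem_congr_right h3 (pairN_fmem_right _ _ r)
      obtain ⟨s, hs, h5⟩ := pairN_fmem_dense h4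
      rcases h5 with h5 | h5
      · have h3s := feq_mono h3 hs
        have h6 : fmem τ (upairN σ' τ') s :=
          fmem_congr_right (feq_symm h3s) (pairN_fmem_right σ τ s)
        obtain ⟨t, ht, h7⟩ := pairN_fmem_dense h6
        refine ⟨t, ht.trans (hs.trans hr), ?_⟩
        rcases h7 with h7 | h7
        · exact feq_trans h7 (feq_trans
            (feq_symm (feq_mono h1q (ht.trans (hs.trans hr)))) (feq_symm (feq_mono h5 ht)))
        · exact h7
      · exact ⟨s, hs.trans hr, feq_symm h5⟩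
  · rintro ⟨h1, h2⟩
    exact pairN_upair_congr (pairN_upair_congr h1 h1) (pairN_upair_congr h1 h2)

theorem pairN_upair_injective {σ τ σ' τ' : Nm P} (h : upairN σ τ = upairN σ' τ') :
    σ = σ' ∧ τ = τ' := by
  have h1 : (fun b : ULift.{u} Bool => cond b.down σ τ) = fun b => cond b.down σ' τ' := by
    unfold upairN at h
    injection h
  exact ⟨congrFun h1 ⟨true⟩, congrFun h1 ⟨false⟩⟩

theorem pairN_injective {σ τ σ' τ' : Nm P} (h : pairN σ τ = pairN σ' τ') : σ = σ' ∧ τ = τ' :=
  pairN_upair_injective (pairN_upair_injective h).2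

theorem eq_of_feq_numN {m n : ℕ} {p : P} (h : feq (numN m : Nm P) (numN n) p) : m = n :=
  nN_inj h

end Pool.Agent.Helper52.MA
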